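import Pool.Agent.helper6.HB_Aux

open MeasureTheory ProbabilityTheory Set Filter Topology
open scoped ENNReal NNReal

namespace Pool.Agent.helper6.HB

open Pool.Agent.helper23.HB

/-- lower bound of the clock after the splitting time -/
theorem clk_low (hCK : St_CK) (ε r1 lam K s : ℝ) (X r : ℝ → ℝ) (hε : 0 < ε) (hr1 : 0 < r1)
    (hlam : 0 < lam + 1 / 2) (hs : 0 < s) (hr : RSol lam X r) (hr0 : r 0 ≤ K)
    (hU : ∀ j : ℕ, ¬bad ε j (blk 1 X) → ∀ y, 0 ≤ y → y ≤ 1 →
      r (j + y) ≤ max (r 0) r1 + (lam + 1 / 2 + 4 * ε) * (j + 1))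
    (N n : ℕ) (hN : N < n) (hgd : ∀ j, N ≤ j → j < n → ¬bad ε j (blk 1 X)) (d : ℝ) (hd : 0 ≤ d)
    (hdn : ¬((n : ℝ) - 2 ≤ d)) :
    ENNReal.ofReal (min 1 (clk r n - clk r d)) ^ (-(s / 2)) ≤
      ENNReal.ofReal (Real.exp (s * max K r1 + s * (lam + 1 / 2 + 4 * ε) * (N + 2))) *
        ENNReal.ofReal (Real.exp (s * (lam + 1 / 2 + 4 * ε) * d)) := by
  obtain ⟨c1, -, -, -, c5⟩ := hCK r hr.cont hr.pos
  push Not at hdn
  set j : ℕ := max N ⌈d⌉₊ with hj
  have hjN : N ≤ j := le_max_left _ _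
  have hdj : d ≤ j := (Nat.le_ceil d).trans (by exact_mod_cast le_max_right N ⌈d⌉₊)
  have hjn : j < n := by
    rw [hj, max_lt_iff]
    refine ⟨hN, ?_⟩
    have h1 : (⌈d⌉₊ : ℝ) < d + 1 := Nat.ceil_lt_add_one hd
    have : (⌈d⌉₊ : ℝ) < n := by linarith
    exact_mod_cast this
  have hjn' : (j : ℝ) + 1 ≤ n := by exact_mod_cast hjn
  have hj2 : (j : ℝ) ≤ N + d + 1 := by
    have h1 : (⌈d⌉₊ : ℝ) < d + 1 := Nat.ceil_lt_add_one hd
    have h2 : (0 : ℝ) ≤ N := Nat.cast_nonneg N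
    rw [hj, Nat.cast_max]
    exact max_le (by linarith) (by linarith)
  have hj0 : (0 : ℝ) ≤ j := Nat.cast_nonneg j
  set a : ℝ := lam + 1 / 2 + 4 * ε with ha
  have ha0 : 0 < a := by rw [ha]; linarith
  set M : ℝ := max K r1 + a * (j + 1) with hM
  have hM0 : 0 < M := add_pos (lt_max_of_lt_right hr1) (by positivity)
  have hrM : ∀ y ∈ Icc (j : ℝ) (j + 1), r y ≤ M := by
    intro y hy
    have h1 := hU j (hgd j hjN hjn) (y - j) (by linarith [hy.1]) (by linarith [hy.2])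
    rw [add_sub_cancel] at h1
    have h2 : max (r 0) r1 ≤ max K r1 := max_le_max hr0 le_rfl
    exact h1.trans (by rw [hM]; linarith)
  have h5 := c5 (j : ℝ) (j + 1) M hj0 (by linarith) hrM
  have h6 := c1 d j hd hdj
  have h7 := c1 (j + 1) n (by linarith) hjn'
  have h8 : Real.exp (-2 * M) ≤ min 1 (clk r n - clk r d) := by
    have e1 : 0 < Real.exp (-2 * M) := Real.exp_pos _
    refine le_min ?_ ?_
    · rw [Real.exp_le_one_iff]; linarith
    · have : 4 * ((j : ℝ) + 1 - j) * Real.exp (-2 * M) = 4 * Real.exp (-2 * M) := by ring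
      rw [this] at h5
      linarith
  calc ENNReal.ofReal (min 1 (clk r n - clk r d)) ^ (-(s / 2))
      ≤ ENNReal.ofReal (Real.exp (-2 * M)) ^ (-(s / 2)) := by
        rw [ENNReal.rpow_neg, ENNReal.rpow_neg]
        exact ENNReal.inv_le_inv' (ENNReal.rpow_le_rpow (ENNReal.ofReal_le_ofReal h8)
          (by linarith))
    _ = ENNReal.ofReal (Real.exp (s * M)) := by
        rw [ENNReal.ofReal_rpow_of_pos (Real.exp_pos _), ← Real.exp_mul]
        congr 2
        ring
    _ ≤ ENNReal.ofReal (Real.exp (s * max K r1 + s * a * (N + 2)) * Real.exp (s * a * d)) := by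
        apply ENNReal.ofReal_le_ofReal
        rw [← Real.exp_add]
        apply Real.exp_le_exp.2
        have h9 : a * (j + 1) ≤ a * (N + 2) + a * d := by
          have : a * ((j : ℝ) + 1) ≤ a * (N + d + 1 + 1) := by gcongr
          linarith
        have h10 := mul_le_mul_of_nonneg_left h9 hs.le
        rw [hM]
        linarith
    _ = _ := ENNReal.ofReal_mul (Real.exp_pos _).le

/-- summation over the pairs -/
theorem sum_pairs (hC4 : St_C4) (β κ : ℝ) (τ : Lab → ℝ) (hβ : 0 < β) (hNE : NE τ) (n : ℕ) :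
    ENNReal.ofReal (Real.exp (-β * n) ^ 2) * ∑' z : Quad,
        ind (qu z ∈ Alive τ n ∧ qv z ∈ Alive τ n) *
          ENNReal.ofReal (Real.exp (κ * death τ z.1)) ≤ 2 * Hst β κ τ := by
  have e1 : Real.exp (-β * n) ^ 2 = Real.exp (-(2 * β * n)) := by
    rw [← Real.exp_nat_mul]
    congr 1
    push_cast
    ring
  have e2 : ∑' z : Quad, ind (qu z ∈ Alive τ n ∧ qv z ∈ Alive τ n) *
          ENNReal.ofReal (Real.exp (κ * death τ z.1)) =
      ∑' w : Lab, ∑' z : Bool × Lab × Lab, ind (qu (w, z) ∈ Alive τ n ∧ qv (w, z) ∈ Alive τ n) *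
          ENNReal.ofReal (Real.exp (κ * death τ w)) :=
    ENNReal.tsum_prod (f := fun (w : Lab) (z : Bool × Lab × Lab) =>
      ind (qu (w, z) ∈ Alive τ n ∧ qv (w, z) ∈ Alive τ n) *
          ENNReal.ofReal (Real.exp (κ * death τ w)))
  rw [e1, e2, ← ENNReal.tsum_mul_left]
  unfold Hst
  rw [← ENNReal.tsum_mul_left]
  refine ENNReal.tsum_le_tsum fun w => ?_
  rw [ENNReal.tsum_mul_right]
  have h1 := hC4.2.2 β τ hβ hNE n w (Nat.cast_nonneg n)
  calc ENNReal.ofReal (Real.exp (-(2 * β * n))) * ((∑' z : Bool × Lab × Lab,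
        ind (qu (w, z) ∈ Alive τ n ∧ qv (w, z) ∈ Alive τ n)) *
          ENNReal.ofReal (Real.exp (κ * death τ w)))
      = (ENNReal.ofReal (Real.exp (-(2 * β * n))) * ∑' z : Bool × Lab × Lab,
        ind (qu (w, z) ∈ Alive τ n ∧ qv (w, z) ∈ Alive τ n)) *
          ENNReal.ofReal (Real.exp (κ * death τ w)) := (mul_assoc _ _ _).symm
    _ ≤ 2 * (ENNReal.ofReal (Real.exp (-(2 * β * death τ w))) * Ms β (sh (false :: w) τ) *
        Ms β (sh (true :: w) τ)) * ENNReal.ofReal (Real.exp (κ * death τ w)) := by gcongr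
    _ = 2 * ((ENNReal.ofReal (Real.exp (κ * death τ w)) *
          ENNReal.ofReal (Real.exp (-(2 * β * death τ w)))) * Ms β (sh (false :: w) τ) *
        Ms β (sh (true :: w) τ)) := by ring
    _ = 2 * (ENNReal.ofReal (Real.exp ((κ - 2 * β) * death τ w)) * Ms β (sh (false :: w) τ) *
        Ms β (sh (true :: w) τ)) := by
        rw [← ENNReal.ofReal_mul (Real.exp_pos _).le, ← Real.exp_add]
        congr 6
        ring

theorem mEN4 (hPAIR : St_PAIR) (hUPR : St_UPR) (hCK : St_CK) (hC4 : St_C4)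
    (hMSYS : St_MSYS) : St_EN4 := by
  intro Ω mΩ P hP β lam hβ hlam S ε s K N hε hs0 hs1 hK
  obtain ⟨C0, hC0, hP0⟩ := hPAIR s hs0 hs1
  obtain ⟨r1, hr1, hU⟩ := hUPR ε hε
  have hc : 0 < lam + 1 / 2 := by linarith
  set κ : ℝ := s * (lam + 1 / 2 + 4 * ε) with hκ
  set C1 : ℝ≥0∞ := ENNReal.ofReal (Real.exp (s * max K r1 + κ * (N + 2))) with hC1
  refine ⟨C0 * C1 * (2 * ENNReal.ofReal K), ?_, ?_⟩
  · exact ENNReal.mul_ne_top (ENNReal.mul_ne_top hC0 ENNReal.ofReal_ne_top)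
      (ENNReal.mul_ne_top (by simp) ENNReal.ofReal_ne_top)
  intro n F hn hF hFb
  have hTmR : Measurable[S.mR] S.T := @measurable_pi_lambda _ _ _ S.mR _ _ S.measT
  have hTm : Measurable S.T := hTmR.mono S.mR_le le_rfl
  have hBmR : Measurable[S.mR] S.B := @measurable_pi_lambda _ _ _ S.mR _ _ S.measB
  have hTBmR : Measurable[S.mR] fun ω => (S.T ω, S.B ω) :=
    hTmR.prodMk hBmR
  have hFm : MeasurableSet F := S.mR_le _ hF
  let H : Quad → Set Ω := fun z => {ω | qu z ∈ Gd4 ε N n (S.T ω) (S.B ω) ∧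
    qv z ∈ Gd4 ε N n (S.T ω) (S.B ω) ∧ ¬((n : ℝ) - 2 ≤ death (S.T ω) z.1)}
  have hH : ∀ z, MeasurableSet[S.mR] (H z) := by
    intro z
    have m1 : MeasurableSet[S.mR] {ω | qu z ∈ Gd4 ε N n (S.T ω) (S.B ω)} :=
      hTBmR (measurableSet_Gd4 ε N n (qu z))
    have m2 : MeasurableSet[S.mR] {ω | qv z ∈ Gd4 ε N n (S.T ω) (S.B ω)} :=
      hTBmR (measurableSet_Gd4 ε N n (qv z))
    have m3 : MeasurableSet[S.mR] {ω | (n : ℝ) - 2 ≤ death (S.T ω) z.1} :=
      ((measurable_death _).comp hTmR) measurableSet_Ici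
    exact @MeasurableSet.inter _ S.mR _ _ m1 (@MeasurableSet.inter _ S.mR _ _ m2
      (@MeasurableSet.compl _ _ S.mR m3))
  have hHm : ∀ z, MeasurableSet (H z) := fun z => S.mR_le _ (hH z)
  let e : Quad → Ω → ℝ≥0∞ := fun z ω => ‖S.D ω (qu z) n - S.D ω (qv z) n‖ₑ ^ (-s)
  have he : ∀ z, Measurable (e z) := by
    intro z
    have hD := (hMSYS Ω P β lam S).2.2.2.2.1
    have d1 : Measurable fun ω => S.D ω (qu z) n :=
      hD (qu z) (fun _ => (n : ℝ)) measurable_const fun _ => Nat.cast_nonneg n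
    have d2 : Measurable fun ω => S.D ω (qv z) n :=
      hD (qv z) (fun _ => (n : ℝ)) measurable_const fun _ => Nat.cast_nonneg n
    exact ((d1.sub d2).enorm).pow_const _
  let g : Quad → Ω → ℝ≥0∞ := fun z ω => ind (ω ∈ F ∩ H z)
  have hg : ∀ z, Measurable[S.mR] (g z) := fun z =>
    @measurable_ind Ω S.mR _ (@MeasurableSet.inter _ S.mR _ _ hF (hH z))
  let a2 : ℝ≥0∞ := ENNReal.ofReal (Real.exp (-β * n) ^ 2)
  have step1 : ∫⁻ ω in F, a2 * ∑' z : Quad, ind (ω ∈ H z) * e z ω ∂P =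
      a2 * ∑' z : Quad, ∫⁻ ω, g z ω * e z ω ∂P := by
    have hme : ∀ z, Measurable fun ω => ind (ω ∈ H z) * e z ω := fun z =>
      (measurable_ind (hHm z)).mul (he z)
    rw [lintegral_const_mul _ (Measurable.tsum hme),
      lintegral_tsum fun z => (hme z).aemeasurable]
    congr 1
    refine tsum_congr fun z => ?_
    rw [← lintegral_indicator hFm]
    refine lintegral_congr fun ω => ?_
    by_cases hω : ω ∈ F
    · rw [indicator_of_mem hω]
      simp only [g, mem_inter_iff, ind_and, ind_true hω, one_mul]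
    · rw [indicator_of_notMem hω]
      simp only [g, mem_inter_iff, ind_and, ind_false hω, zero_mul]
  have step2 : ∀ z, ∫⁻ ω, g z ω * e z ω ∂P ≤ C0 * ∫⁻ ω in F,
      ind (qu z ∈ Alive (S.T ω) n ∧ qv z ∈ Alive (S.T ω) n) *
        (C1 * ENNReal.ofReal (Real.exp (κ * death (S.T ω) z.1))) ∂P := by
    intro z
    have h1 := hP0 Ω P β lam S z (fun _ => (n : ℝ)) (g z) (@measurable_const _ _ _ S.mR _)
      (fun _ => Nat.cast_nonneg n) (hg z) (by
        intro ω hω
        have h := (ind_ne_zero.1 hω).2.2.2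
        push Not at h
        linarith)
    refine h1.trans (mul_le_mul' le_rfl ?_)
    rw [← lintegral_indicator hFm]
    refine lintegral_mono fun ω => ?_
    by_cases hω : ω ∈ F ∩ H z
    · have hωF := hω.1
      obtain ⟨q1, q2, q3⟩ := hω.2
      rw [indicator_of_mem hωF]
      have h2 : g z ω = 1 := ind_true hω
      rw [h2, ind_true ⟨q1.1, q2.1⟩, one_mul, one_mul]
      exact clk_low hCK ε r1 lam K s (line (S.T ω) (S.B ω) (qu z)) (S.R ω (qu z)) hε hr1 hc hs0
        (S.rad ω (qu z)) (by rw [S.start]; exact (hFb ω hωF).2.1)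
        (hU lam _ _ hc (line_continuous _ _ _) (S.rad ω (qu z))) N n hn q1.2
        (death (S.T ω) z.1) (death_pos (S.life.pos ω) z.1).le q3
    · have h2 : g z ω = 0 := ind_false hω
      rw [h2, zero_mul]
      exact zero_le
  calc ∫⁻ ω in F, ENNReal.ofReal (Real.exp (-β * n) ^ 2) * ∑' z : Quad,
        ind (qu z ∈ Gd4 ε N n (S.T ω) (S.B ω) ∧ qv z ∈ Gd4 ε N n (S.T ω) (S.B ω) ∧
          ¬((n : ℝ) - 2 ≤ death (S.T ω) z.1)) *
        ‖S.D ω (qu z) n - S.D ω (qv z) n‖ₑ ^ (-s) ∂P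
      = a2 * ∑' z : Quad, ∫⁻ ω, g z ω * e z ω ∂P := step1
    _ ≤ a2 * ∑' z : Quad, C0 * ∫⁻ ω in F,
      ind (qu z ∈ Alive (S.T ω) n ∧ qv z ∈ Alive (S.T ω) n) *
        (C1 * ENNReal.ofReal (Real.exp (κ * death (S.T ω) z.1))) ∂P := by
        gcongr with z
        exact step2 z
    _ = ∫⁻ ω in F, C0 * C1 * (a2 * ∑' z : Quad,
        ind (qu z ∈ Alive (S.T ω) n ∧ qv z ∈ Alive (S.T ω) n) *
          ENNReal.ofReal (Real.exp (κ * death (S.T ω) z.1))) ∂P := by
        have hmi : ∀ z : Quad, Measurable fun ω => ind (qu z ∈ Alive (S.T ω) n ∧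
            qv z ∈ Alive (S.T ω) n) * ENNReal.ofReal (Real.exp (κ * death (S.T ω) z.1)) := by
          intro z
          refine Measurable.mul ?_ ?_
          · have m1 : MeasurableSet {ω | qu z ∈ Alive (S.T ω) n} :=
              hTm (measurableSet_Alive_left _ _)
            have m2 : MeasurableSet {ω | qv z ∈ Alive (S.T ω) n} :=
              hTm (measurableSet_Alive_left _ _)
            exact measurable_ind (m1.inter m2)
          · exact ((((measurable_death z.1).comp hTm).const_mul _).exp).ennreal_ofReal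
        rw [lintegral_const_mul _ ((Measurable.tsum hmi).const_mul _),
          lintegral_const_mul _ (Measurable.tsum hmi),
          lintegral_tsum fun z => (hmi z).aemeasurable, ENNReal.tsum_mul_left]
        have : ∀ z : Quad, ∫⁻ ω in F, ind (qu z ∈ Alive (S.T ω) n ∧ qv z ∈ Alive (S.T ω) n) *
            (C1 * ENNReal.ofReal (Real.exp (κ * death (S.T ω) z.1))) ∂P =
            C1 * ∫⁻ ω in F, ind (qu z ∈ Alive (S.T ω) n ∧ qv z ∈ Alive (S.T ω) n) *
              ENNReal.ofReal (Real.exp (κ * death (S.T ω) z.1)) ∂P := by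
          intro z
          rw [← lintegral_const_mul _ (hmi z)]
          refine lintegral_congr fun ω => ?_
          ring
        simp_rw [this, ENNReal.tsum_mul_left]
        ring
    _ ≤ ∫⁻ ω in F, C0 * C1 * (2 * ENNReal.ofReal K) ∂P := by
        refine setLIntegral_mono' hFm fun ω hω => ?_
        refine mul_le_mul' le_rfl ((sum_pairs hC4 β κ (S.T ω) hβ (hFb ω hω).1 n).trans ?_)
        exact mul_le_mul' le_rfl (hFb ω hω).2.2
    _ = C0 * C1 * (2 * ENNReal.ofReal K) * P F := by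
        rw [setLIntegral_const]

end Pool.Agent.helper6.HB
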