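import Pool.Agent.helper23.HB.Stmts

/-!
# HB_LIMA : a Fatou lemma conditional on a sigma-algebra
-/

open MeasureTheory ProbabilityTheory Set Filter Topology
open scoped ENNReal NNReal

namespace Pool.Agent.helper6.HB

open Pool.Agent.helper23.HB

/-- conditional Fatou lemma, one level -/
theorem lima_level {Ω : Type} [mΩ : MeasurableSpace Ω] (P : Measure Ω) [IsProbabilityMeasure P]
    (I : ℕ → Ω → ℝ≥0∞) (E : ℕ → Set Ω) (C : ℝ≥0∞) (hI : ∀ n, Measurable (I n))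
    (hE : ∀ n, MeasurableSet (E n))
    (hbd : ∀ m n : ℕ, ∫⁻ ω in {ω | m ≤ n ∧ ω ∈ E n ∧ ∀ j, m ≤ j → j < n → ω ∉ E j}, I n ω ∂P ≤
      C * P {ω | m ≤ n ∧ ω ∈ E n ∧ ∀ j, m ≤ j → j < n → ω ∉ E j}) (L : ℝ≥0∞) (hL : L ≠ 0)
    (hL' : L ≠ ∞) (m : ℕ) :
    P {ω | (∃ᶠ n in atTop, ω ∈ E n) ∧ ∀ n, m ≤ n → ω ∈ E n → L < I n ω} ≤ C / L := by
  set F : ℕ → Set Ω := fun n => {ω | m ≤ n ∧ ω ∈ E n ∧ ∀ j, m ≤ j → j < n → ω ∉ E j} with hF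
  have hFm : ∀ n, MeasurableSet (F n) := by
    intro n
    have : F n = {ω : Ω | m ≤ n} ∩ (E n ∩ ⋂ j ∈ Finset.Ico m n, (E j)ᶜ) := by
      ext ω
      simp only [hF, mem_ofPred_eq, mem_inter_iff, mem_iInter, Finset.mem_Ico, mem_compl_iff,
        and_imp]
    rw [this]
    exact (MeasurableSet.const _).inter ((hE n).inter
      (Finset.measurableSet_biInter _ fun j _ => (hE j).compl))
  have hdisj : Pairwise (Function.onFun Disjoint F) := by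
    intro a b hab
    refine Set.disjoint_left.2 ?_
    rintro ω ⟨h1, h2, h3⟩ ⟨h4, h5, h6⟩
    rcases lt_or_gt_of_ne hab with h | h
    · exact h6 a h1 h h2
    · exact h3 b h4 h h5
  have hsub : {ω | (∃ᶠ n in atTop, ω ∈ E n) ∧ ∀ n, m ≤ n → ω ∈ E n → L < I n ω} ⊆
      ⋃ n, ({ω | L ≤ I n ω} ∩ F n) := by
    rintro ω ⟨h1, h2⟩
    have h3 : ∃ n, m ≤ n ∧ ω ∈ E n := by
      obtain ⟨n, hn, hn'⟩ := (frequently_atTop.1 h1) m
      exact ⟨n, hn, hn'⟩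
    classical
    have h4 := Nat.find_spec h3
    refine mem_iUnion.2 ⟨Nat.find h3, (h2 _ h4.1 h4.2).le, h4.1, h4.2, fun j hj1 hj2 hj3 => ?_⟩
    exact Nat.find_min h3 hj2 ⟨hj1, hj3⟩
  calc P {ω | (∃ᶠ n in atTop, ω ∈ E n) ∧ ∀ n, m ≤ n → ω ∈ E n → L < I n ω}
      ≤ P (⋃ n, ({ω | L ≤ I n ω} ∩ F n)) := measure_mono hsub
    _ ≤ ∑' n, P ({ω | L ≤ I n ω} ∩ F n) := measure_iUnion_le _
    _ ≤ ∑' n, (C / L) * P (F n) := by
        refine ENNReal.tsum_le_tsum fun n => ?_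
        have h1 : P ({ω | L ≤ I n ω} ∩ F n) = (P.restrict (F n)) {ω | L ≤ I n ω} :=
          (Measure.restrict_apply' (hFm n)).symm
        rw [h1]
        have h2 := meas_ge_le_lintegral_div (μ := P.restrict (F n)) (hI n).aemeasurable hL hL'
        refine h2.trans ?_
        refine (ENNReal.div_le_div_right (hbd m n) L).trans ?_
        rw [div_eq_mul_inv, div_eq_mul_inv]
        exact le_of_eq (by ring)
    _ = C / L * P (⋃ n, F n) := by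
        rw [ENNReal.tsum_mul_left, measure_iUnion hdisj hFm]
    _ ≤ C / L * 1 := by gcongr; exact prob_le_one
    _ = C / L := mul_one _

theorem lima {Ω : Type} [mΩ : MeasurableSpace Ω] (P : Measure Ω) [IsProbabilityMeasure P]
    (I : ℕ → Ω → ℝ≥0∞) (E : ℕ → Set Ω) (C : ℝ≥0∞) (hI : ∀ n, Measurable (I n))
    (hE : ∀ n, MeasurableSet (E n)) (hC : C ≠ ∞)
    (hbd : ∀ m n : ℕ, ∫⁻ ω in {ω | m ≤ n ∧ ω ∈ E n ∧ ∀ j, m ≤ j → j < n → ω ∉ E j}, I n ω ∂P ≤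
      C * P {ω | m ≤ n ∧ ω ∈ E n ∧ ∀ j, m ≤ j → j < n → ω ∉ E j}) :
    ∀ᵐ ω ∂P, (∃ᶠ n in atTop, ω ∈ E n) → ∃ L : ℕ, ∃ᶠ n in atTop, ω ∈ E n ∧
      I n ω ≤ (L : ℝ≥0∞) := by
  rw [ae_iff]
  set B : Set Ω := {ω | ¬((∃ᶠ n in atTop, ω ∈ E n) → ∃ L : ℕ, ∃ᶠ n in atTop, ω ∈ E n ∧
      I n ω ≤ (L : ℝ≥0∞))} with hB
  have h1 : ∀ L : ℕ, P B ≤ C / (L + 1 : ℕ) := by
    intro L
    have hsub : B ⊆ ⋃ m : ℕ, {ω | (∃ᶠ n in atTop, ω ∈ E n) ∧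
        ∀ n, m ≤ n → ω ∈ E n → ((L + 1 : ℕ) : ℝ≥0∞) < I n ω} := by
      intro ω hω
      simp only [hB, mem_ofPred_eq, Classical.not_imp, not_exists, not_frequently, not_and,
        not_le] at hω
      obtain ⟨m, hm⟩ := eventually_atTop.1 (hω.2 (L + 1))
      exact mem_iUnion.2 ⟨m, hω.1, hm⟩
    have hmono : Monotone fun m : ℕ => {ω | (∃ᶠ n in atTop, ω ∈ E n) ∧
        ∀ n, m ≤ n → ω ∈ E n → ((L + 1 : ℕ) : ℝ≥0∞) < I n ω} := by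
      rintro a b hab ω ⟨h1, h2⟩
      exact ⟨h1, fun n hn => h2 n (hab.trans hn)⟩
    calc P B ≤ P (⋃ m : ℕ, {ω | (∃ᶠ n in atTop, ω ∈ E n) ∧
        ∀ n, m ≤ n → ω ∈ E n → ((L + 1 : ℕ) : ℝ≥0∞) < I n ω}) := measure_mono hsub
      _ = ⨆ m : ℕ, P {ω | (∃ᶠ n in atTop, ω ∈ E n) ∧
        ∀ n, m ≤ n → ω ∈ E n → ((L + 1 : ℕ) : ℝ≥0∞) < I n ω} := hmono.measure_iUnion
      _ ≤ C / (L + 1 : ℕ) := iSup_le fun m => lima_level P I E C hI hE hbd _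
          (by simp) (ENNReal.natCast_ne_top _) m
  have h2 : Tendsto (fun L : ℕ => C / ((L + 1 : ℕ) : ℝ≥0∞)) atTop (𝓝 0) := by
    have := (ENNReal.tendsto_inv_nat_nhds_zero.comp (tendsto_add_atTop_nat 1))
    have h3 := ENNReal.Tendsto.const_mul this (Or.inr hC)
    simpa [div_eq_mul_inv] using h3
  exact le_antisymm (ge_of_tendsto' h2 h1) zero_le

/-- the statement of LIMA with energies measurable for the large sigma-algebra -/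
def St_LIMA' : Prop :=
  ∀ (Ω : Type) [mΩ : MeasurableSpace Ω] (P : Measure Ω) [IsProbabilityMeasure P]
    (mR : MeasurableSpace Ω), mR ≤ mΩ → ∀ (I : ℕ → Ω → ℝ≥0∞) (E : ℕ → Set Ω) (C : ℝ≥0∞),
    (∀ n, Measurable[mΩ] (I n)) → (∀ n, MeasurableSet[mR] (E n)) → C ≠ ∞ →
    (∀ n (F : Set Ω), MeasurableSet[mR] F → F ⊆ E n → ∫⁻ ω in F, I n ω ∂P ≤ C * P F) →
    ∀ᵐ ω ∂P, (∃ᶠ n in atTop, ω ∈ E n) → ∃ L : ℕ, ∃ᶠ n in atTop, ω ∈ E n ∧ I n ω ≤ (L : ℝ≥0∞)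

theorem mLIMA' : St_LIMA' := by
  intro Ω mΩ P hP mR hR I E C hI hE hC hbd
  refine @lima Ω mΩ P hP I E C hI (fun n => hR _ (hE n)) hC fun m n => hbd n _ ?_ ?_
  · have : {ω | m ≤ n ∧ ω ∈ E n ∧ ∀ j, m ≤ j → j < n → ω ∉ E j} =
        {ω : Ω | m ≤ n} ∩ (E n ∩ ⋂ j ∈ Finset.Ico m n, (E j)ᶜ) := by
      ext ω
      simp only [mem_ofPred_eq, mem_inter_iff, mem_iInter, Finset.mem_Ico, mem_compl_iff,
        and_imp]
    rw [this]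
    exact @MeasurableSet.inter _ mR _ _ (@MeasurableSet.const _ mR _)
      (@MeasurableSet.inter _ mR _ _ (hE n)
        (@Finset.measurableSet_biInter _ _ mR _ _ fun j _ => @MeasurableSet.compl _ _ mR (hE j)))
  · rintro ω ⟨-, h, -⟩
    exact h

end Pool.Agent.helper6.HB
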