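import Pool.Agent.helper6.HB_Aux
import Pool.Agent.helper6.HB_LIMA

/-!
# HB_LM : lower bound for the dimension of the limit measure
-/

open MeasureTheory ProbabilityTheory Set Filter Topology
open scoped ENNReal NNReal

namespace Pool.Agent.helper6.HB

open Pool.Agent.helper23.HB

/-! ## the near-diagonal pairs -/

/-- normalised number of the near-diagonal pairs -/
noncomputable def ND (β : ℝ) (n : ℕ) (τ : Lab → ℝ) : ℝ≥0∞ :=
  ENNReal.ofReal (Real.exp (-β * n) ^ 2) * ∑' z : Quad,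
    ind (qu z ∈ Alive τ n ∧ qv z ∈ Alive τ n ∧ (n : ℝ) - 2 ≤ death τ z.1)

theorem measurable_ind_nd (n : ℕ) (z : Quad) : Measurable (fun τ : Lab → ℝ =>
    ind (qu z ∈ Alive τ n ∧ qv z ∈ Alive τ n ∧ (n : ℝ) - 2 ≤ death τ z.1)) := by
  have : MeasurableSet {τ : Lab → ℝ | qu z ∈ Alive τ n ∧ qv z ∈ Alive τ n ∧
      (n : ℝ) - 2 ≤ death τ z.1} :=
    (measurableSet_Alive_left _ _).inter ((measurableSet_Alive_left _ _).inter
      (measurableSet_le measurable_const (measurable_death _)))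
  exact measurable_ind this

theorem measurable_ND (β : ℝ) (n : ℕ) : Measurable (ND β n) :=
  (Measurable.tsum fun z => measurable_ind_nd n z).const_mul _

theorem lintegral_ND_le (hPRS : St_PRS) (Ω : Type) [MeasurableSpace Ω] (P : Measure Ω)
    [IsProbabilityMeasure P] (β : ℝ) (T : Ω → Lab → ℝ) (hβ : 0 < β) (hT : Life β P T) (n : ℕ) :
    ∫⁻ ω, ND β n (T ω) ∂P ≤
      ENNReal.ofReal (4 * β * Real.exp (2 * β)) * ENNReal.ofReal (Real.exp (-β)) ^ n := by
  have hTm : Measurable T := measurable_pi_lambda _ hT.meas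
  let ψ : ℝ → ℝ≥0∞ := fun r => ind (r ∈ {r : ℝ | (n : ℝ) - 2 ≤ r})
  have hψ : Measurable ψ := measurable_ind (measurableSet_le measurable_const measurable_id)
  have h1 := hPRS Ω P β T hβ hT n n ψ hψ
  have h2 : ∫⁻ ω, ND β n (T ω) ∂P = ENNReal.ofReal (Real.exp (-β * n) ^ 2) *
      ∫⁻ r in Ioc (0 : ℝ) (min (n : ℝ) n), ψ r *
        ENNReal.ofReal (2 * β * Real.exp (β * ((n : ℝ) + n - r))) := by
    rw [← h1]
    unfold ND
    rw [lintegral_const_mul, lintegral_tsum]
    · congr 1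
      refine tsum_congr fun z => lintegral_congr fun ω => ?_
      rw [ind_and, ind_and, ← mul_assoc]
      rfl
    · intro z
      exact ((measurable_ind_nd n z).comp hTm).aemeasurable
    · exact (Measurable.tsum fun z => measurable_ind_nd n z).comp hTm
  rw [h2]
  have h3 : ∫⁻ r in Ioc (0 : ℝ) (min (n : ℝ) n), ψ r *
        ENNReal.ofReal (2 * β * Real.exp (β * ((n : ℝ) + n - r))) ≤
      ENNReal.ofReal (2 * β * Real.exp (β * (n + 2))) * 2 := by
    rw [min_self]
    calc ∫⁻ r in Ioc (0 : ℝ) (n : ℝ), ψ r *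
        ENNReal.ofReal (2 * β * Real.exp (β * ((n : ℝ) + n - r)))
        ≤ ∫⁻ r in Ioc (0 : ℝ) (n : ℝ), (Icc ((n : ℝ) - 2) n).indicator
            (fun _ => ENNReal.ofReal (2 * β * Real.exp (β * (n + 2)))) r := by
          refine setLIntegral_mono_ae ?_ ?_
          · exact (measurable_const.indicator measurableSet_Icc).aemeasurable
          · refine Filter.Eventually.of_forall fun r hr => ?_
            by_cases hr2 : (n : ℝ) - 2 ≤ r
            · rw [indicator_of_mem (show r ∈ Icc ((n : ℝ) - 2) n from ⟨hr2, hr.2⟩)]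
              have : ψ r = 1 := ind_true hr2
              rw [this, one_mul]
              apply ENNReal.ofReal_le_ofReal
              apply mul_le_mul_of_nonneg_left _ (by positivity)
              apply Real.exp_le_exp.2
              apply mul_le_mul_of_nonneg_left _ hβ.le
              linarith
            · have : ψ r = 0 := ind_false hr2
              rw [this, zero_mul]
              exact zero_le
      _ ≤ ∫⁻ r, (Icc ((n : ℝ) - 2) n).indicator
            (fun _ => ENNReal.ofReal (2 * β * Real.exp (β * (n + 2)))) r :=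
          setLIntegral_le_lintegral _ _
      _ = ENNReal.ofReal (2 * β * Real.exp (β * (n + 2))) * 2 := by
          rw [lintegral_indicator measurableSet_Icc, setLIntegral_const, Real.volume_Icc]
          congr 1
          rw [show (n : ℝ) - (n - 2) = 2 by ring]
          simp
  calc ENNReal.ofReal (Real.exp (-β * n) ^ 2) *
      ∫⁻ r in Ioc (0 : ℝ) (min (n : ℝ) n), ψ r *
        ENNReal.ofReal (2 * β * Real.exp (β * ((n : ℝ) + n - r)))
      ≤ ENNReal.ofReal (Real.exp (-β * n) ^ 2) *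
        (ENNReal.ofReal (2 * β * Real.exp (β * (n + 2))) * 2) := by gcongr
    _ = ENNReal.ofReal (4 * β * Real.exp (2 * β)) * ENNReal.ofReal (Real.exp (-β)) ^ n := by
        have h2' : (2 : ℝ≥0∞) = ENNReal.ofReal 2 := by simp
        rw [h2', ← ENNReal.ofReal_pow (Real.exp_pos _).le, ← ENNReal.ofReal_mul (by positivity),
          ← ENNReal.ofReal_mul (by positivity), ← ENNReal.ofReal_mul (by positivity)]
        congr 1
        have e1 : Real.exp (-β * n) ^ 2 = Real.exp (-β * n) * Real.exp (-β * n) := by ring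
        have e2 : Real.exp (-β) ^ n = Real.exp (-β * n) := by
          rw [← Real.exp_nat_mul]
          congr 1
          ring
        have e3 : Real.exp (-β * n) * Real.exp (β * (n + 2)) = Real.exp (2 * β) := by
          rw [← Real.exp_add]
          congr 1
          ring
        rw [e1, e2, ← e3]
        ring

theorem ND_tendsto (hPRS : St_PRS) (Ω : Type) [MeasurableSpace Ω] (P : Measure Ω)
    [IsProbabilityMeasure P] (β : ℝ) (T : Ω → Lab → ℝ) (hβ : 0 < β) (hT : Life β P T) :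
    ∀ᵐ ω ∂P, Tendsto (fun n => ND β n (T ω)) atTop (𝓝 0) := by
  have hTm : Measurable T := measurable_pi_lambda _ hT.meas
  have h1 : ∫⁻ ω, ∑' n : ℕ, ND β n (T ω) ∂P ≠ ∞ := by
    have e := lintegral_tsum (μ := P) (f := fun (n : ℕ) (ω : Ω) => ND β n (T ω))
      fun n => ((measurable_ND β n).comp hTm).aemeasurable
    rw [e]
    refine ne_top_of_le_ne_top ?_ (ENNReal.tsum_le_tsum fun n =>
      lintegral_ND_le hPRS Ω P β T hβ hT n)
    rw [ENNReal.tsum_mul_left, ENNReal.tsum_geometric]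
    refine ENNReal.mul_ne_top ENNReal.ofReal_ne_top ?_
    rw [ENNReal.inv_ne_top, ne_eq, tsub_eq_zero_iff_le, not_le]
    rw [← ENNReal.ofReal_one]
    exact (ENNReal.ofReal_lt_ofReal_iff one_pos).2 (by
      rw [Real.exp_lt_one_iff]; linarith)
  have h2 := ae_lt_top (Measurable.tsum fun n => (measurable_ND β n).comp hTm) h1
  filter_upwards [h2] with ω hω
  exact ENNReal.tendsto_atTop_zero_of_tsum_ne_top hω.ne

/-! ## the deterministic part -/

theorem exists_card (β w : ℝ) (τ : Lab → ℝ) (D : Lab → ℝ → ℂ) (μ : Measure ℂ) (A : Set ℂ)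
    (G : ℕ → Set Lab) (S : Set ℕ) (hw0 : 0 < w) (hNE : NE τ)
    (hw : Tendsto (fun t : ℝ => Real.exp (-β * t) * ((Alive τ t).ncard : ℝ)) atTop (𝓝 w))
    (hμ : IsLim τ D μ) (hA : MeasurableSet A) (hA0 : μ (circ \ A) = 0)
    (hG : ∀ n, G n ⊆ Alive τ n)
    (hbad : ∃ N0 : ℕ, ∀ n, N0 ≤ n → Real.exp (-β * n) * ((Alive τ n \ G n).ncard : ℝ) ≤ w / 8)
    (hS : ∃ᶠ n in atTop, n ∈ S) (U : ℕ → Set ℂ) (hU : ∀ i, IsOpen (U i)) (hAU : A ⊆ ⋃ i, U i) :
    ∃ k : ℕ, ∃ᶠ n in atTop, n ∈ S ∧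
      w / 4 ≤ Real.exp (-β * n) * (({p | p ∈ G n ∧ ∃ i < k, D p n ∈ U i} : Set Lab).ncard : ℝ) := by
  obtain ⟨hμ1, hμ2, hμ3⟩ := hμ
  -- the measure of `A`
  have hμA : μ A = 1 := by
    have h1 : μ (Aᶜ) = 0 := by
      refine measure_mono_null (t := circᶜ ∪ (circ \ A)) ?_ (measure_union_null hμ2 hA0)
      intro z hz
      by_cases hzc : z ∈ circ
      · exact Or.inr ⟨hzc, hz⟩
      · exact Or.inl hzc
    exact (prob_compl_eq_zero_iff hA).1 h1
  -- a finite part of the cover carries most of the mass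
  obtain ⟨k, hk⟩ : ∃ k : ℕ, (7 / 8 : ℝ≥0∞) < μ (⋃ i ∈ Finset.range k, U i) := by
    have hmono : Monotone fun k : ℕ => ⋃ i ∈ Finset.range k, U i := by
      intro a b hab
      refine iUnion₂_subset fun i hi => ?_
      exact subset_iUnion₂_of_subset i (Finset.mem_range.2
        ((Finset.mem_range.1 hi).trans_le hab)) subset_rfl
    have ht := tendsto_measure_iUnion_atTop (μ := μ) hmono
    have h1 : (1 : ℝ≥0∞) ≤ μ (⋃ k : ℕ, ⋃ i ∈ Finset.range k, U i) := by
      rw [← hμA]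
      refine measure_mono (hAU.trans (iUnion_subset fun i => ?_))
      exact subset_iUnion_of_subset (i + 1) (subset_iUnion₂_of_subset i
        (Finset.mem_range.2 (Nat.lt_succ_self i)) subset_rfl)
    have h2 : (7 / 8 : ℝ≥0∞) < μ (⋃ k : ℕ, ⋃ i ∈ Finset.range k, U i) := by
      refine lt_of_lt_of_le ?_ h1
      rw [ENNReal.div_lt_iff (by simp) (by simp)]
      norm_num
    exact (ht.eventually (lt_mem_nhds h2)).exists
  set O : Set ℂ := ⋃ i ∈ Finset.range k, U i with hO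
  have hOo : IsOpen O := isOpen_biUnion fun i _ => hU i
  obtain ⟨F, hFO, hFc, hF⟩ := hOo.exists_lt_isClosed hk
  obtain ⟨f, hf0, hf1, hf⟩ := exists_bounded_zero_one_of_closed hOo.isClosed_compl hFc
    (disjoint_compl_left_iff_subset.2 hFO)
  have hint : (7 / 8 : ℝ) < ∫ z, f z ∂μ := by
    have h1 : (μ F).toReal ≤ ∫ z, f z ∂μ := by
      have : (μ F).toReal = ∫ z, F.indicator (fun _ => (1 : ℝ)) z ∂μ := by
        rw [integral_indicator_const _ hFc.measurableSet]
        simp [Measure.real]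
      rw [this]
      refine integral_mono ((integrable_const _).indicator hFc.measurableSet) (f.integrable μ)
        fun z => ?_
      by_cases hz : z ∈ F
      · rw [indicator_of_mem hz, hf1 hz]; simp
      · rw [indicator_of_notMem hz]; exact (hf z).1
    have h2 : (7 / 8 : ℝ) < (μ F).toReal := by
      have := (ENNReal.toReal_lt_toReal (by
        exact (ENNReal.div_lt_top (by simp) (by simp)).ne) (measure_ne_top μ F)).2 hF
      simpa using this
    linarith
  refine ⟨k, ?_⟩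
  have hlim := hμ3 f
  have e1 : ∀ᶠ n : ℕ in atTop, 7 / 8 < avg τ (n : ℝ) (fun v => f (D v (n : ℝ))) :=
    (hlim.comp tendsto_natCast_atTop_atTop).eventually (lt_mem_nhds hint)
  have e2 : ∀ᶠ n : ℕ in atTop, 6 / 7 * w < Real.exp (-β * (n : ℝ)) * ((Alive τ n).ncard : ℝ) :=
    (hw.comp tendsto_natCast_atTop_atTop).eventually (lt_mem_nhds (by linarith))
  obtain ⟨N0, hN0⟩ := hbad
  have e3 : ∀ᶠ n : ℕ in atTop, N0 ≤ n := eventually_ge_atTop N0
  refine (hS.and_eventually (e1.and (e2.and e3))).mono ?_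
  rintro n ⟨hnS, h1, h2, h3⟩
  refine ⟨hnS, ?_⟩
  have hfin := hNE.finite_Alive (n : ℝ)
  have h4 := hN0 n h3
  -- the particles in `O`
  set V : Set Lab := {v | v ∈ Alive τ n ∧ D v n ∈ O} with hV
  have hVf : V.Finite := hfin.subset fun v hv => hv.1
  have h5 : ∑ᶠ v ∈ Alive τ n, f (D v n) ≤ (V.ncard : ℝ) := by
    rw [finsum_mem_eq_finite_toFinset_sum _ hfin]
    rw [ncard_eq_toFinset_card _ hVf]
    classical
    have : ∑ v ∈ hfin.toFinset, f (D v n) ≤ ∑ v ∈ hfin.toFinset, if v ∈ V then (1 : ℝ) else 0 := by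
      refine Finset.sum_le_sum fun v hv => ?_
      by_cases hvV : v ∈ V
      · rw [if_pos hvV]; exact (hf _).2
      · rw [if_neg hvV]
        have : D v n ∈ Oᶜ := fun h => hvV ⟨hfin.mem_toFinset.1 hv, h⟩
        rw [hf0 this]; simp
    refine this.trans ?_
    rw [Finset.sum_ite, Finset.sum_const_zero, add_zero, Finset.sum_const, nsmul_eq_mul, mul_one]
    exact_mod_cast Finset.card_le_card fun v hv => by
      simp only [Finset.mem_filter] at hv
      exact hVf.mem_toFinset.2 hv.2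
  have hpos : 0 < ((Alive τ n).ncard : ℝ) := by
    rcases (Nat.cast_nonneg (α := ℝ) (Alive τ n).ncard).eq_or_lt with h | h
    · rw [← h] at h2
      linarith
    · exact h
  have h6 : 7 / 8 * ((Alive τ n).ncard : ℝ) ≤ V.ncard := by
    have : 7 / 8 < ((Alive τ n).ncard : ℝ)⁻¹ * (V.ncard : ℝ) := by
      refine h1.trans_le ?_
      unfold avg
      gcongr
    rw [inv_mul_eq_div, lt_div_iff₀ hpos] at this
    exact this.le
  have h7 : (V.ncard : ℝ) ≤ (({p | p ∈ G n ∧ ∃ i < k, D p n ∈ U i} : Set Lab).ncard : ℝ) +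
      ((Alive τ n \ G n).ncard : ℝ) := by
    have hsub : V ⊆ {p | p ∈ G n ∧ ∃ i < k, D p n ∈ U i} ∪ (Alive τ n \ G n) := by
      rintro v ⟨hv1, hv2⟩
      by_cases hvG : v ∈ G n
      · left
        rw [hO] at hv2
        simp only [mem_iUnion, Finset.mem_range, exists_prop] at hv2
        exact ⟨hvG, hv2⟩
      · exact Or.inr ⟨hv1, hvG⟩
    have hfin2 : ({p | p ∈ G n ∧ ∃ i < k, D p n ∈ U i} ∪ (Alive τ n \ G n)).Finite :=
      hfin.subset (union_subset (fun p hp => hG n hp.1) sdiff_subset)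
    exact_mod_cast (ncard_le_ncard hsub hfin2).trans (ncard_union_le _ _)
  have hexp : 0 < Real.exp (-β * (n : ℝ)) := Real.exp_pos _
  nlinarith [mul_le_mul_of_nonneg_left h7 hexp.le, mul_le_mul_of_nonneg_left h6 hexp.le]

theorem det_step (hDET : St_DET) (β s w L : ℝ) (τ : Lab → ℝ) (D : Lab → ℝ → ℂ)
    (μ : Measure ℂ) (A : Set ℂ) (G : ℕ → Set Lab) (S : Set ℕ) (hβ : 0 < β) (hs : 0 < s)
    (hw0 : 0 < w) (hNE : NE τ)
    (hw : Tendsto (fun t : ℝ => Real.exp (-β * t) * ((Alive τ t).ncard : ℝ)) atTop (𝓝 w))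
    (hμ : IsLim τ D μ) (hA : MeasurableSet A) (hA0 : μ (circ \ A) = 0)
    (hG : ∀ n, G n ⊆ Alive τ n)
    (hbad : ∃ N0 : ℕ, ∀ n, N0 ≤ n → Real.exp (-β * n) * ((Alive τ n \ G n).ncard : ℝ) ≤ w / 8)
    (hND : Tendsto (fun n => ND β n τ) atTop (𝓝 0)) (hS : ∃ᶠ n in atTop, n ∈ S)
    (hen : ∀ n ∈ S, ENNReal.ofReal (Real.exp (-β * n) ^ 2) * ∑' z : Quad,
        ind (qu z ∈ G n ∧ qv z ∈ G n ∧ ¬((n : ℝ) - 2 ≤ death τ z.1)) *
        ‖D (qu z) n - D (qv z) n‖ₑ ^ (-s) ≤ ENNReal.ofReal L) :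
    ENNReal.ofReal s ≤ dimH A := by
  have hfin : ∀ n, (G n).Finite := fun n => (hNE.finite_Alive n).subset (hG n)
  refine hDET A s (w / 4) L (fun n => (hfin n).toFinset) (fun n => Real.exp (-β * n))
    (fun n v => (n : ℝ) - 2 ≤ death τ v) (fun n v => D v n) S hs (by linarith)
    (fun n => Real.exp_pos _) ?_ ?_ ?_ ?_
  · intro n p hp q hq hpq
    exact eq_of_suffix hNE.1 (hG n ((hfin n).mem_toFinset.1 hp))
      (hG n ((hfin n).mem_toFinset.1 hq)) hpq
  · -- the near part and the diagonal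
    have h1 : Tendsto (fun n : ℕ => ENNReal.ofReal (Real.exp (-β * n)) *
        ENNReal.ofReal (Real.exp (-β * n) * ((Alive τ n).ncard : ℝ)) + ND β n τ) atTop (𝓝 0) := by
      have e1 : Tendsto (fun n : ℕ => ENNReal.ofReal (Real.exp (-β * n))) atTop (𝓝 0) := by
        rw [← ENNReal.ofReal_zero]
        refine ENNReal.tendsto_ofReal ?_
        refine Real.tendsto_exp_atBot.comp ?_
        have : Tendsto (fun n : ℕ => β * (n : ℝ)) atTop atTop :=
          tendsto_natCast_atTop_atTop.const_mul_atTop hβ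
        refine (tendsto_neg_atTop_atBot.comp this).congr fun n => ?_
        simp
      have e2 : Tendsto (fun n : ℕ => ENNReal.ofReal
          (Real.exp (-β * n) * ((Alive τ n).ncard : ℝ))) atTop (𝓝 (ENNReal.ofReal w)) :=
        ENNReal.tendsto_ofReal (hw.comp tendsto_natCast_atTop_atTop)
      have e3 := ENNReal.Tendsto.mul e1 (Or.inr ENNReal.ofReal_ne_top) e2
        (Or.inr ENNReal.zero_ne_top)
      have e4 := e3.add hND
      simpa using e4
    refine tendsto_of_tendsto_of_tendsto_of_le_of_le tendsto_const_nhds h1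
      (fun n => zero_le) fun n => ?_
    simp only
    rw [mul_add]
    refine add_le_add ?_ ?_
    · have : ENNReal.ofReal (Real.exp (-β * n) ^ 2) = ENNReal.ofReal (Real.exp (-β * n)) *
          ENNReal.ofReal (Real.exp (-β * n)) := by
        rw [← ENNReal.ofReal_mul (Real.exp_pos _).le, sq]
      rw [this, ENNReal.ofReal_mul (Real.exp_pos _).le, ENNReal.ofReal_natCast, mul_assoc]
      gcongr
      rw [← ncard_eq_toFinset_card _ (hfin n)]
      exact ncard_le_ncard (hG n) (hNE.finite_Alive n)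
    · unfold ND
      gcongr with z
      refine ind_mono ?_
      rintro ⟨h1, h2, h3⟩
      exact ⟨hG n ((hfin n).mem_toFinset.1 h1), hG n ((hfin n).mem_toFinset.1 h2), h3⟩
  · intro n hn
    simpa only [Set.Finite.mem_toFinset] using hen n hn
  · intro U hU hAU
    simpa only [Set.Finite.mem_toFinset] using
      exists_card β w τ D μ A G S hw0 hNE hw hμ hA hA0 hG hbad hS U hU hAU

/-! ## the probabilistic part -/

theorem mLM (hFEW : St_FEW) (hEN4 : St_EN4) (hH4 : St_H4) (hLIMA : St_LIMA') (hDET : St_DET)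
    (hPRS : St_PRS) (hCNT : St_CNT) (hPOS : St_POS) (hMSYS : St_MSYS) : St_LM := by
  intro Ω mΩ P hP β lam hβ hlam S
  set c : ℝ := lam + 1 / 2 with hc
  have hc0 : 0 < c := by rw [hc]; linarith
  set δ : ℝ := min (β / c) 1 with hδ
  have hδ0 : 0 < δ := lt_min (div_pos hβ hc0) one_pos
  have hδeq : min (2 * β / (2 * lam + 1)) 1 = δ := by
    rw [hδ]
    congr 1
    rw [hc, div_eq_div_iff (by linarith) (by linarith)]
    ring
  rw [hδeq]
  -- it suffices to treat a countable number of exponents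
  suffices h : ∀ k : ℕ, ∀ᵐ ω ∂P, ∀ μ : Measure ℂ, IsLim (S.T ω) (S.D ω) μ → ∀ A : Set ℂ,
      MeasurableSet A → A ⊆ circ → μ (circ \ A) = 0 →
      ENNReal.ofReal (δ * (1 - 1 / ((k : ℝ) + 2))) ≤ dimH A by
    filter_upwards [ae_all_iff.2 h] with ω hω μ hμ A hA hAc hA0
    have h1 : Tendsto (fun k : ℕ => ENNReal.ofReal (δ * (1 - 1 / ((k : ℝ) + 2)))) atTop
        (𝓝 (ENNReal.ofReal δ)) := by
      refine ENNReal.tendsto_ofReal ?_
      have e1 : Tendsto (fun k : ℕ => 1 / ((k : ℝ) + 2)) atTop (𝓝 0) := by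
        refine Tendsto.div_atTop tendsto_const_nhds ?_
        exact tendsto_atTop_add_const_right _ _ tendsto_natCast_atTop_atTop
      have e2 := (tendsto_const_nhds (x := (1 : ℝ))).sub e1
      have e3 := e2.const_mul δ
      simpa using e3
    exact le_of_tendsto' h1 fun k => hω k μ hμ A hA hAc hA0
  intro k
  set s : ℝ := δ * (1 - 1 / ((k : ℝ) + 2)) with hs
  have hk0 : (0 : ℝ) < (k : ℝ) + 2 := by positivity
  have hk1 : 1 / ((k : ℝ) + 2) < 1 := by
    rw [div_lt_one hk0]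
    have : (0 : ℝ) ≤ k := Nat.cast_nonneg k
    linarith
  have hk2 : 0 < 1 / ((k : ℝ) + 2) := by positivity
  have hs0 : 0 < s := mul_pos hδ0 (by linarith)
  have hsδ : s < δ := by
    rw [hs]
    nlinarith
  have hs1 : s < 1 := hsδ.trans_le (min_le_right _ _)
  have hsβ : s * c < β := by
    have : s < β / c := hsδ.trans_le (min_le_left _ _)
    rwa [lt_div_iff₀ hc0] at this
  set ε : ℝ := (β - s * c) / (8 * s) with hε
  have hε0 : 0 < ε := div_pos (by linarith) (by linarith)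
  have hκ : s * (lam + 1 / 2 + 4 * ε) < β := by
    have : s * (lam + 1 / 2 + 4 * ε) = s * c + (β - s * c) / 2 := by
      rw [hε, ← hc]
      field_simp
      ring
    rw [this]
    linarith
  set κ : ℝ := s * (lam + 1 / 2 + 4 * ε) with hκd
  have hTmR : Measurable[S.mR] S.T := @measurable_pi_lambda _ _ _ S.mR _ _ S.measT
  have hTm : Measurable S.T := hTmR.mono S.mR_le le_rfl
  have hBmR : Measurable[S.mR] S.B := @measurable_pi_lambda _ _ _ S.mR _ _ S.measB
  have hBm : Measurable S.B := hBmR.mono S.mR_le le_rfl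
  -- almost sure facts
  have a1 := hFEW Ω P β lam hβ hlam S ε hε0
  have a2 := (hCNT Ω P β S.T hβ S.life).2
  have a3 := hPOS Ω P β S.T hβ S.life
  have a4 : ∀ᵐ ω ∂P, Hst β κ (S.T ω) < ∞ :=
    ae_lt_top ((measurable_Hst β κ).comp hTm) (hH4 Ω P β S.T hβ S.life κ hκ)
  have a5 := ND_tendsto hPRS Ω P β S.T hβ S.life
  -- the energies
  let I : ℕ → ℕ → Ω → ℝ≥0∞ := fun N n ω => ENNReal.ofReal (Real.exp (-β * n) ^ 2) * ∑' z : Quad,
        ind (qu z ∈ Gd4 ε N n (S.T ω) (S.B ω) ∧ qv z ∈ Gd4 ε N n (S.T ω) (S.B ω) ∧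
          ¬((n : ℝ) - 2 ≤ death (S.T ω) z.1)) *
        ‖S.D ω (qu z) n - S.D ω (qv z) n‖ₑ ^ (-s)
  let E : ℕ → ℕ → ℕ → Set Ω := fun K N n => {ω | N < n ∧ (NE (S.T ω) ∧ S.ρ0 ω ≤ K ∧
      Hst β κ (S.T ω) ≤ ENNReal.ofReal K)}
  have hI : ∀ N n, Measurable (I N n) := by
    intro N n
    refine Measurable.const_mul (Measurable.tsum fun z => Measurable.mul ?_ ?_) _
    · have hTB : Measurable fun ω => (S.T ω, S.B ω) := hTm.prodMk hBm
      have m1 : MeasurableSet {ω | qu z ∈ Gd4 ε N n (S.T ω) (S.B ω)} :=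
        hTB (measurableSet_Gd4 ε N n (qu z))
      have m2 : MeasurableSet {ω | qv z ∈ Gd4 ε N n (S.T ω) (S.B ω)} :=
        hTB (measurableSet_Gd4 ε N n (qv z))
      have m3 : MeasurableSet {ω | (n : ℝ) - 2 ≤ death (S.T ω) z.1} :=
        measurableSet_le measurable_const ((measurable_death _).comp hTm)
      exact measurable_ind (m1.inter (m2.inter m3.compl))
    · have hD := (hMSYS Ω P β lam S).2.2.2.2.1
      have d1 : Measurable fun ω => S.D ω (qu z) n :=
        hD (qu z) (fun _ => (n : ℝ)) measurable_const fun _ => Nat.cast_nonneg n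
      have d2 : Measurable fun ω => S.D ω (qv z) n :=
        hD (qv z) (fun _ => (n : ℝ)) measurable_const fun _ => Nat.cast_nonneg n
      exact ((d1.sub d2).enorm).pow_const _
  have hE : ∀ K N n, MeasurableSet[S.mR] (E K N n) := by
    intro K N n
    have m1 : MeasurableSet[S.mR] {ω | NE (S.T ω)} := hTmR measurableSet_NE
    have m2 : MeasurableSet[S.mR] {ω | S.ρ0 ω ≤ K} := S.measρ measurableSet_Iic
    have m3 : MeasurableSet[S.mR] {ω | Hst β κ (S.T ω) ≤ ENNReal.ofReal K} :=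
      ((measurable_Hst β κ).comp hTmR) measurableSet_Iic
    have m4 : MeasurableSet[S.mR] {ω : Ω | N < n} := @MeasurableSet.const _ S.mR _
    exact @MeasurableSet.inter _ S.mR _ _ m4 (@MeasurableSet.inter _ S.mR _ _ m1
      (@MeasurableSet.inter _ S.mR _ _ m2 m3))
  have a6 : ∀ᵐ ω ∂P, ∀ K N : ℕ, (∃ᶠ n in atTop, ω ∈ E K N n) →
      ∃ L : ℕ, ∃ᶠ n in atTop, ω ∈ E K N n ∧ I N n ω ≤ (L : ℝ≥0∞) := by
    rw [ae_all_iff]
    intro K
    rw [ae_all_iff]
    intro N
    obtain ⟨C, hC, hCb⟩ := hEN4 Ω P β lam hβ hlam S ε s K N hε0 hs0 hs1 (Nat.cast_nonneg K)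
    refine hLIMA Ω P S.mR S.mR_le (I N) (E K N) C (hI N) (hE K N) hC ?_
    intro n F hF hFE
    by_cases hn : N < n
    · exact hCb n F hn hF fun ω hω => (hFE hω).2
    · have : F = ∅ := by
        ext ω
        simp only [mem_empty_iff_false, iff_false]
        exact fun hω => hn (hFE hω).1
      subst this
      simp
  filter_upwards [a1, a2, a3, a4, a5, a6] with ω b1 b2 b3 b4 b5 b6 μ hμ A hA hAc hA0
  obtain ⟨w, hw0, hw⟩ := b3 []
  rw [sh_nil] at hw
  obtain ⟨N, hN⟩ := b1 (w / 8) (by linarith)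
  -- choice of `K`
  obtain ⟨K, hK1, hK2⟩ : ∃ K : ℕ, S.ρ0 ω ≤ K ∧ Hst β κ (S.T ω) ≤ ENNReal.ofReal K := by
    obtain ⟨K1, hK1⟩ := exists_nat_ge (S.ρ0 ω)
    obtain ⟨K2, hK2⟩ := exists_nat_ge (Hst β κ (S.T ω)).toReal
    refine ⟨max K1 K2, hK1.trans (by exact_mod_cast le_max_left _ _), ?_⟩
    rw [← ENNReal.ofReal_toReal b4.ne]
    apply ENNReal.ofReal_le_ofReal
    exact hK2.trans (by exact_mod_cast le_max_right _ _)
  have hEf : ∃ᶠ n in atTop, ω ∈ E K N n := by
    refine Eventually.frequently ?_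
    filter_upwards [eventually_gt_atTop N] with n hn
    exact ⟨hn, b2, hK1, hK2⟩
  obtain ⟨L, hL⟩ := b6 K N hEf
  refine det_step hDET β s w L (S.T ω) (S.D ω) μ A (fun n => Gd4 ε N n (S.T ω) (S.B ω))
    {n | ω ∈ E K N n ∧ I N n ω ≤ (L : ℝ≥0∞)} hβ hs0 hw0 b2 hw hμ hA hA0
    (fun n v hv => hv.1) ⟨N, hN⟩ b5 hL ?_
  rintro n ⟨-, hn⟩
  rw [ENNReal.ofReal_natCast]
  exact hn

end Pool.Agent.helper6.HB
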