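import Pool.Agent.helper23.HB.Stmts

/-!
# Measurability lemmas for HB_LM, HB_EN4
-/

open MeasureTheory ProbabilityTheory Set Filter Topology
open scoped ENNReal NNReal

namespace Pool.Agent.helper6.HB

open Pool.Agent.helper23.HB

/-! ## finiteness and measurability -/

theorem tsum_ind (S : Set Lab) : ∑' u : Lab, ind (u ∈ S) = S.encard := by
  simp_rw [ind_mem]
  rw [← tsum_subtype]
  exact ENNReal.tsum_set_one S

theorem finite_iff (S : Set Lab) : S.Finite ↔ ∑' u : Lab, ind (u ∈ S) ≠ ∞ := by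
  rw [tsum_ind, ← Set.encard_ne_top_iff]
  simp

theorem measurableSet_NE : MeasurableSet {τ : Lab → ℝ | NE τ} := by
  have h : {τ : Lab → ℝ | NE τ} = (⋂ u : Lab, {τ : Lab → ℝ | 0 < τ u}) ∩
      ⋂ n : ℕ, {τ : Lab → ℝ | ∑' u : Lab, ind (u ∈ {v | birth τ v ≤ (n : ℝ)}) < ∞} := by
    ext τ
    simp only [mem_ofPred_eq, mem_inter_iff, mem_iInter]
    constructor
    · rintro ⟨h1, h2⟩
      exact ⟨h1, fun n => lt_top_iff_ne_top.2 ((finite_iff _).1 (h2 n))⟩
    · rintro ⟨h1, h2⟩
      refine ⟨h1, fun t => ?_⟩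
      have h3 := (finite_iff _).2 (lt_top_iff_ne_top.1 (h2 ⌈t⌉₊))
      exact h3.subset fun u hu => le_trans hu (Nat.le_ceil t)
  rw [h]
  refine MeasurableSet.inter (MeasurableSet.iInter fun u => ?_) (MeasurableSet.iInter fun n => ?_)
  · exact measurableSet_lt measurable_const (measurable_pi_apply u)
  · refine measurableSet_lt ?_ measurable_const
    refine Measurable.tsum fun u => ?_
    have : MeasurableSet {τ : Lab → ℝ | birth τ u ≤ (n : ℝ)} :=
      measurableSet_le (measurable_birth u) measurable_const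
    exact measurable_ind this

theorem measurable_Hst (β κ : ℝ) : Measurable (fun τ : Lab → ℝ => Hst β κ τ) := by
  refine Measurable.tsum fun w => ?_
  refine Measurable.mul (Measurable.mul ?_ ?_) ?_
  · exact (((measurable_death w).const_mul _).exp).ennreal_ofReal
  · exact (measurable_Ms β).comp (measurable_sh _)
  · exact (measurable_Ms β).comp (measurable_sh _)

theorem measurableSet_bad (ε : ℝ) (m : ℕ) : MeasurableSet {x : ℕ → ℝ × ℝ | bad ε m x} := by
  have h : {x : ℕ → ℝ × ℝ | bad ε m x} =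
      (⋃ k ∈ Finset.range m, {x : ℕ → ℝ × ℝ | ε * m ≤ (∑ j ∈ Finset.Ico k m, (x j).1) + (x k).2}) ∪
        {x : ℕ → ℝ × ℝ | ε * m ≤ (x m).2} := by
    ext x
    simp only [bad, mem_ofPred_eq, mem_union, mem_iUnion, Finset.mem_range, exists_prop]
  rw [h]
  refine MeasurableSet.union (Finset.measurableSet_biUnion _ fun k _ => ?_) ?_
  · refine measurableSet_le measurable_const (Measurable.add ?_ ?_)
    · exact Finset.measurable_sum _ fun j _ => measurable_fst.comp (measurable_pi_apply j)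
    · exact measurable_snd.comp (measurable_pi_apply k)
  · exact measurableSet_le measurable_const (measurable_snd.comp (measurable_pi_apply m))

theorem measurableSet_Gd4 (ε : ℝ) (N n : ℕ) (v : Lab) :
    MeasurableSet {x : (Lab → ℝ) × (Lab → Pth) | v ∈ Gd4 ε N n x.1 x.2} := by
  have h : {x : (Lab → ℝ) × (Lab → Pth) | v ∈ Gd4 ε N n x.1 x.2} =
      {x : (Lab → ℝ) × (Lab → Pth) | v ∈ Alive x.1 n} ∩
      ⋂ j ∈ Finset.Ico N n, {x : (Lab → ℝ) × (Lab → Pth) | bad ε j (blk 1 (line x.1 x.2 v))}ᶜ := by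
    ext x
    simp only [Gd4, mem_ofPred_eq, mem_inter_iff, mem_iInter, Finset.mem_Ico, mem_compl_iff]
    constructor
    · rintro ⟨h1, h2⟩
      exact ⟨h1, fun j hj => h2 j hj.1 hj.2⟩
    · rintro ⟨h1, h2⟩
      exact ⟨h1, fun j h3 h4 => h2 j ⟨h3, h4⟩⟩
  rw [h]
  refine MeasurableSet.inter ?_ (Finset.measurableSet_biInter _ fun j _ => ?_)
  · exact measurable_fst (measurableSet_Alive_left v n)
  · exact ((measurable_blk_line 1 v) (measurableSet_bad ε j)).compl

end Pool.Agent.helper6.HB
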